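import Pool.Agent.Helper67.KPG.St1

/-! # Project KP, chapter G, module JMA -/

set_option autoImplicit false

namespace Pool.Agent.Helper98.KPG

open Pool.Agent.Helper67.KPG

universe u

theorem hJMA (hJAC : StJAC.{u}) : StJMA.{u} := by
  intro g _ _ _ _ e he
  have hK : LieAlgebra.IsKilling ℂ g := inferInstance
  obtain ⟨T, hT⟩ : ∃ T : g →ₗ[ℂ] g, T = (LieAlgebra.ad ℂ g e) ∘ₗ (LieAlgebra.ad ℂ g e) := ⟨_, rfl⟩
  have hTa : ∀ x, T x = ⁅e, ⁅e, x⁆⁆ := fun x => by rw [hT]; rfl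
  have hmem : e ∈ LinearMap.range T := by
    by_contra hcon
    obtain ⟨f, hf1, hf2⟩ := Submodule.exists_le_ker_of_notMem hcon
    have hnd := LieAlgebra.IsKilling.killingForm_nondegenerate ℂ g
    obtain ⟨z, hz⟩ : ∃ z, ∀ y, killingForm ℂ g z y = f y :=
      ⟨((killingForm ℂ g).toDual hnd).symm f,
        fun y => LinearMap.BilinForm.apply_toDual_symm_apply f y⟩
    have hinv : ∀ x y w : g, killingForm ℂ g ⁅x, y⁆ w = killingForm ℂ g x ⁅y, w⁆ :=
      fun x y w => LieModule.traceForm_apply_lie_apply ℂ g g x y w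
    have hsymm : ∀ x y : g, killingForm ℂ g x y = killingForm ℂ g y x :=
      fun x y => LieModule.traceForm_comm ℂ g g x y
    have hTz : T z = 0 := by
      have h1 : ∀ x, killingForm ℂ g (T z) x = 0 := by
        intro x
        have h2 : killingForm ℂ g z (T x) = 0 := by
          rw [hz]
          exact LinearMap.mem_ker.mp (hf2 ⟨x, rfl⟩)
        have h3 : killingForm ℂ g (T z) x = killingForm ℂ g z (T x) := by
          rw [hTa, hTa, ← lie_skew, ← lie_skew e z, map_neg, LinearMap.neg_apply, hinv,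
            map_neg, LinearMap.neg_apply, neg_neg, hinv]
        rw [h3, h2]
      exact hnd.1 _ h1
    have h4 : LinearMap.trace ℂ g ((LieAlgebra.ad ℂ g e) ∘ₗ (LieAlgebra.ad ℂ g z)) = 0 := by
      refine hJAC g _ _ he ?_
      have h5 : (LieAlgebra.ad ℂ g e) ∘ₗ (LieAlgebra.ad ℂ g z) -
          (LieAlgebra.ad ℂ g z) ∘ₗ (LieAlgebra.ad ℂ g e) = LieAlgebra.ad ℂ g ⁅e, z⁆ := by
        ext x
        simp
      rw [h5]
      ext x
      have h6 : ⁅e, ⁅e, z⁆⁆ = 0 := by rw [← hTa]; exact hTz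
      simp only [LinearMap.comp_apply, LieAlgebra.ad_apply]
      rw [leibniz_lie e ⁅e, z⁆ x, h6, zero_lie, zero_add]
    have h7 : killingForm ℂ g z e = 0 := by
      rw [hsymm]
      exact h4
    rw [hz] at h7
    exact hf1 h7
  obtain ⟨F', hF'⟩ := hmem
  refine ⟨-((2 : ℂ) • F'), ?_⟩
  rw [lie_neg, lie_neg, lie_smul, lie_smul, ← hTa, hF']

end Pool.Agent.Helper98.KPG
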